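import Pool.Agent.Q164.LT.Stm
import Pool.Agent.Cov.PNT

/-!
# Job MASS of project LT
-/

set_option autoImplicit false

namespace Pool.Agent.Q224.LT

open Finset Filter Asymptotics
open scoped Topology

/-- `1 / (2 √n)` -/
noncomputable def f (n : ℕ) : ℝ := 1 / (2 * Real.sqrt n)

/-- `1 / (4 √n log n)` -/
noncomputable def g (n : ℕ) : ℝ := 1 / (4 * Real.sqrt n * Real.log n)

/-- `√n / (2 log n)` -/
noncomputable def G (n : ℕ) : ℝ := Real.sqrt n / (2 * Real.log n)

/-- the number of the primes below `n` -/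
noncomputable def P (n : ℕ) : ℝ := (Nat.primeCounting' n : ℝ)

/-- the terms of the summation by parts -/
noncomputable def h (n : ℕ) : ℝ := P (n + 1) * (f n - f (n + 1))

/-- `f` on the primes -/
noncomputable def v (n : ℕ) : ℝ := if n.Prime then f n else 0

lemma log_tend : Tendsto (fun x : ℕ => Real.log x) atTop atTop :=
  Real.tendsto_log_atTop.comp tendsto_natCast_atTop_atTop

lemma g_nonneg (n : ℕ) : 0 ≤ g n := by
  unfold g
  have := Real.log_natCast_nonneg n
  positivity

lemma P_succ (n : ℕ) : P (n + 1) = P n + if n.Prime then 1 else 0 := by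
  unfold P Nat.primeCounting'
  rw [Nat.count_succ]
  split_ifs <;> push_cast <;> ring

/-- Summation by parts. -/
lemma abel (x : ℕ) : ∑ n ∈ range x, v n = P x * f x + ∑ n ∈ range x, h n := by
  induction x with
  | zero => simp [P]
  | succ x ih =>
    rw [sum_range_succ, sum_range_succ, ih, h]
    have h1 : v x = (P (x + 1) - P x) * f x := by
      rw [P_succ, v]
      split_ifs <;> ring
    rw [h1]
    ring

/-- `√(1 + 1 / n) → 1`. -/
lemma sq_ratio : Tendsto (fun n : ℕ => Real.sqrt (n + 1) / Real.sqrt n) atTop (𝓝 1) := by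
  have h1 : Tendsto (fun n : ℕ => 1 + 1 / (n : ℝ)) atTop (𝓝 (1 + 0)) :=
    tendsto_const_nhds.add (tendsto_const_div_atTop_nhds_zero_nat 1)
  have h2 := (Real.continuous_sqrt.tendsto _).comp h1
  rw [add_zero, Real.sqrt_one] at h2
  refine h2.congr' ?_
  filter_upwards [eventually_ge_atTop 1] with n hn
  have hn' : (0 : ℝ) < n := by exact_mod_cast hn
  rw [Function.comp_apply, ← Real.sqrt_div' _ hn'.le]
  congr 1
  field_simp

/-- `n (log (n + 1) - log n) ≤ 1`. -/
lemma log_diff (n : ℕ) (hn : 1 ≤ n) :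
    0 ≤ n * (Real.log (n + 1) - Real.log n) ∧ n * (Real.log (n + 1) - Real.log n) ≤ 1 := by
  have hn' : (0 : ℝ) < n := by exact_mod_cast hn
  have h1 : Real.log (n + 1) - Real.log n = Real.log (1 + 1 / n) := by
    rw [← Real.log_div (by positivity) hn'.ne']
    congr 1
    field_simp
  constructor
  · refine mul_nonneg hn'.le (sub_nonneg.2 (Real.log_le_log hn' (by linarith)))
  · rw [h1]
    have h2 : Real.log (1 + 1 / (n : ℝ)) ≤ 1 / n := by
      have := Real.log_le_sub_one_of_pos (show (0 : ℝ) < 1 + 1 / n by positivity)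
      linarith
    calc (n : ℝ) * Real.log (1 + 1 / n) ≤ n * (1 / n) := mul_le_mul_of_nonneg_left h2 hn'.le
      _ = 1 := by field_simp

lemma log_succ_tend : Tendsto (fun n : ℕ => Real.log ((n : ℝ) + 1)) atTop atTop := by
  have h1 := log_tend.comp (tendsto_add_atTop_nat 1)
  refine h1.congr (fun n => ?_)
  simp

lemma small : Tendsto (fun n : ℕ => n * (Real.log (n + 1) - Real.log n) / Real.log (n + 1))
    atTop (𝓝 0) := by
  refine squeeze_zero_norm' (a := fun n : ℕ => 1 / Real.log ((n : ℝ) + 1)) ?_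
    (tendsto_const_nhds.div_atTop log_succ_tend)
  filter_upwards [eventually_ge_atTop 1] with n hn
  have hn' : (1 : ℝ) ≤ n := by exact_mod_cast hn
  have hl : 0 < Real.log ((n : ℝ) + 1) := Real.log_pos (by linarith)
  rw [Real.norm_eq_abs, abs_div, abs_of_pos hl, abs_of_nonneg (log_diff n hn).1]
  exact div_le_div_of_nonneg_right (log_diff n hn).2 hl.le

lemma log_ratio : Tendsto (fun n : ℕ => Real.log n / Real.log (n + 1)) atTop (𝓝 1) := by
  have h1 : Tendsto (fun n : ℕ => 1 - (n : ℝ)⁻¹ *
      (n * (Real.log (n + 1) - Real.log n) / Real.log (n + 1))) atTop (𝓝 (1 - 0 * 0)) :=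
    tendsto_const_nhds.sub (tendsto_inv_atTop_nhds_zero_nat.mul small)
  rw [mul_zero, sub_zero] at h1
  refine h1.congr' ?_
  filter_upwards [eventually_ge_atTop 1] with n hn
  have hn' : (1 : ℝ) ≤ n := by exact_mod_cast hn
  have hl : 0 < Real.log ((n : ℝ) + 1) := Real.log_pos (by linarith)
  have hn0 : (n : ℝ) ≠ 0 := by positivity
  field_simp
  ring

/-- `2 √n (√(n + 1) - √n) → 1`. -/
lemma sq_diff : Tendsto (fun n : ℕ => 2 * Real.sqrt n * (Real.sqrt (n + 1) - Real.sqrt n))
    atTop (𝓝 1) := by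
  have h1 : Tendsto (fun n : ℕ => 2 / (Real.sqrt (n + 1) / Real.sqrt n + 1)) atTop
      (𝓝 (2 / (1 + 1))) := tendsto_const_nhds.div (sq_ratio.add_const 1) (by norm_num)
  rw [show (2 : ℝ) / (1 + 1) = 1 by norm_num] at h1
  refine h1.congr' ?_
  filter_upwards [eventually_ge_atTop 1] with n hn
  have hn' : (0 : ℝ) < n := by exact_mod_cast hn
  have hs : 0 < Real.sqrt n := Real.sqrt_pos.2 hn'
  have hs1 : 0 < Real.sqrt ((n : ℝ) + 1) := Real.sqrt_pos.2 (by linarith)
  have e1 : Real.sqrt n ^ 2 = n := Real.sq_sqrt hn'.le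
  have e2 : Real.sqrt ((n : ℝ) + 1) ^ 2 = n + 1 := Real.sq_sqrt (by linarith)
  have e3 : (Real.sqrt ((n : ℝ) + 1) - Real.sqrt n) * (Real.sqrt ((n : ℝ) + 1) + Real.sqrt n) = 1 := by
    nlinarith
  have hd : Real.sqrt ((n : ℝ) + 1) / Real.sqrt n + 1 ≠ 0 := by positivity
  rw [div_eq_iff hd]
  have e4 : 2 * Real.sqrt n * (Real.sqrt ((n : ℝ) + 1) - Real.sqrt n) *
      (Real.sqrt ((n : ℝ) + 1) / Real.sqrt n + 1) =
      2 * ((Real.sqrt ((n : ℝ) + 1) - Real.sqrt n) * (Real.sqrt ((n : ℝ) + 1) + Real.sqrt n)) := by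
    field_simp
  rw [e4, e3]
  ring

/-- The increments of `G`. -/
lemma dG : Tendsto (fun n : ℕ => (G (n + 1) - G n) / g n) atTop (𝓝 1) := by
  have h1 : Tendsto (fun n : ℕ => 2 * Real.sqrt n * (Real.sqrt (n + 1) - Real.sqrt n) *
      (Real.log n / Real.log (n + 1)) -
      2 * (n * (Real.log (n + 1) - Real.log n) / Real.log (n + 1))) atTop (𝓝 (1 * 1 - 2 * 0)) :=
    (sq_diff.mul log_ratio).sub (small.const_mul 2)
  rw [show (1 : ℝ) * 1 - 2 * 0 = 1 by norm_num] at h1
  refine h1.congr' ?_
  filter_upwards [eventually_ge_atTop 2] with n hn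
  have hn' : (2 : ℝ) ≤ n := by exact_mod_cast hn
  have hs : 0 < Real.sqrt n := Real.sqrt_pos.2 (by linarith)
  have e1 : (n : ℝ) = Real.sqrt n ^ 2 := (Real.sq_sqrt (by linarith)).symm
  have hl : 0 < Real.log n := Real.log_pos (by linarith)
  have hl1 : 0 < Real.log ((n : ℝ) + 1) := Real.log_pos (by linarith)
  unfold G g
  push_cast
  set s := Real.sqrt n with hsdef
  set t := Real.sqrt ((n : ℝ) + 1)
  set L := Real.log (n : ℝ)
  set M := Real.log ((n : ℝ) + 1)
  rw [e1]
  field_simp
  ring

/-- The terms of the summation by parts. -/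
lemma hh : Tendsto (fun n : ℕ => h n / g n) atTop (𝓝 1) := by
  have hP : Tendsto (fun n : ℕ => P (n + 1) * Real.log n / n) atTop (𝓝 1) := by
    have h1 := Pool.Agent.Cov.PNT.pi_tendsto.comp tendsto_natCast_atTop_atTop
    refine h1.congr (fun n => ?_)
    simp [P, Nat.primeCounting]
  have h2 : Tendsto (fun n : ℕ => (P (n + 1) * Real.log n / n) *
      (2 * Real.sqrt n * (Real.sqrt (n + 1) - Real.sqrt n) / (Real.sqrt (n + 1) / Real.sqrt n)))
      atTop (𝓝 (1 * (1 / 1))) := hP.mul (sq_diff.div sq_ratio one_ne_zero)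
  rw [show (1 : ℝ) * (1 / 1) = 1 by norm_num] at h2
  refine h2.congr' ?_
  filter_upwards [eventually_ge_atTop 2] with n hn
  have hn' : (2 : ℝ) ≤ n := by exact_mod_cast hn
  have hs : 0 < Real.sqrt n := Real.sqrt_pos.2 (by linarith)
  have hs1 : 0 < Real.sqrt ((n : ℝ) + 1) := Real.sqrt_pos.2 (by linarith)
  have e1 : (n : ℝ) = Real.sqrt n ^ 2 := (Real.sq_sqrt (by linarith)).symm
  have hl : 0 < Real.log n := Real.log_pos (by linarith)
  unfold h g f
  push_cast
  set s := Real.sqrt n with hsdef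
  set t := Real.sqrt ((n : ℝ) + 1)
  set L := Real.log (n : ℝ)
  set Q := P (n + 1)
  rw [e1]
  field_simp
  ring

lemma g_pos {n : ℕ} (hn : 2 ≤ n) : 0 < g n := by
  have hn' : (2 : ℝ) ≤ n := by exact_mod_cast hn
  have hs : 0 < Real.sqrt n := Real.sqrt_pos.2 (by linarith)
  have hl : 0 < Real.log n := Real.log_pos (by linarith)
  unfold g
  positivity

lemma g_div : Tendsto (fun x : ℕ => ∑ n ∈ range x, g n) atTop atTop := by
  rw [← not_summable_iff_tendsto_nat_atTop_of_nonneg g_nonneg]
  intro hs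
  refine Real.not_summable_natCast_inv ?_
  refine summable_of_isBigO_nat hs ?_
  refine IsBigO.of_bound 8 ?_
  filter_upwards [eventually_ge_atTop 2] with n hn
  have hn' : (2 : ℝ) ≤ n := by exact_mod_cast hn
  have hsq : 0 < Real.sqrt n := Real.sqrt_pos.2 (by linarith)
  have hl : 0 < Real.log n := Real.log_pos (by linarith)
  rw [Real.norm_of_nonneg (by positivity), Real.norm_of_nonneg (g_nonneg n)]
  have h1 : Real.log n ≤ 2 * Real.sqrt n := by
    have e0 : (n : ℝ) = Real.sqrt n ^ 2 := (Real.sq_sqrt (by linarith)).symm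
    have e1 : Real.log n = 2 * Real.log (Real.sqrt n) := by
      conv_lhs => rw [e0]
      rw [Real.log_pow]
      push_cast
      ring
    have e2 := Real.log_le_sub_one_of_pos hsq
    linarith
  have e1 : Real.sqrt n * Real.sqrt n = n := Real.mul_self_sqrt (by linarith)
  unfold g
  rw [mul_one_div, inv_eq_one_div, div_le_div_iff₀ (by linarith) (by positivity)]
  have h3 : Real.sqrt n * Real.log n ≤ Real.sqrt n * (2 * Real.sqrt n) :=
    mul_le_mul_of_nonneg_left h1 hsq.le
  nlinarith

/-- A sequence whose quotient by `g` tends to `1` has partial sums close to those of `g`. -/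
lemma sum_o {a : ℕ → ℝ} (ha : Tendsto (fun n => a n / g n) atTop (𝓝 1)) :
    (fun x : ℕ => ∑ n ∈ range x, (a n - g n)) =o[atTop] fun x : ℕ => ∑ n ∈ range x, g n := by
  refine IsLittleO.sum_range ?_ g_nonneg g_div
  rw [isLittleO_iff_tendsto']
  · have h1 := ha.sub_const 1
    rw [sub_self] at h1
    refine h1.congr' ?_
    filter_upwards [eventually_ge_atTop 2] with n hn
    have := g_pos hn
    field_simp
  · filter_upwards [eventually_ge_atTop 2] with n hn h0
    exact absurd h0 (g_pos hn).ne'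

lemma sum_h : Tendsto (fun x : ℕ => (∑ n ∈ range x, h n) / G x) atTop (𝓝 1) := by
  have h1 := (sum_o hh).tendsto_div_nhds_zero
  have h2 := (sum_o dG).tendsto_div_nhds_zero
  have hev : ∀ᶠ x : ℕ in atTop, 0 < ∑ n ∈ range x, g n := g_div.eventually_gt_atTop 0
  have h3 : Tendsto (fun x : ℕ => (∑ n ∈ range x, h n) / ∑ n ∈ range x, g n) atTop (𝓝 1) := by
    have h4 := h1.add_const 1
    rw [zero_add] at h4
    refine h4.congr' ?_
    filter_upwards [hev] with x hx
    rw [sum_sub_distrib]
    field_simp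
    ring
  have h5 : Tendsto (fun x : ℕ => G x / ∑ n ∈ range x, g n) atTop (𝓝 1) := by
    have h4 := h2.add_const 1
    rw [zero_add] at h4
    refine h4.congr' ?_
    filter_upwards [hev] with x hx
    rw [sum_sub_distrib, sum_range_sub]
    have : G 0 = 0 := by simp [G]
    rw [this]
    field_simp
    ring
  have h6 := h3.div h5 one_ne_zero
  rw [div_one] at h6
  refine h6.congr' ?_
  filter_upwards [hev] with x hx
  exact div_div_div_cancel_right₀ hx.ne' _ _

lemma sum_v : Tendsto (fun x : ℕ => (∑ n ∈ range x, v n) / (Real.sqrt x / Real.log x)) atTop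
    (𝓝 1) := by
  have hP : Tendsto (fun n : ℕ => P n * Real.log n / n) atTop (𝓝 1) := by
    have h1 := Pool.Agent.Cov.PNT.pi_tendsto.comp tendsto_natCast_atTop_atTop
    have h2 : Tendsto (fun n : ℕ => Real.log n / n) atTop (𝓝 0) :=
      Real.isLittleO_log_id_atTop.tendsto_div_nhds_zero.comp tendsto_natCast_atTop_atTop
    have h3 : Tendsto (fun n : ℕ => (if n.Prime then (1 : ℝ) else 0) * (Real.log n / n)) atTop
        (𝓝 0) := by
      refine squeeze_zero_norm (fun n => ?_) h2
      have hl := Real.log_natCast_nonneg n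
      rw [norm_mul, Real.norm_of_nonneg (show 0 ≤ Real.log n / n by positivity)]
      split_ifs
      · simp
      · simp only [norm_zero, zero_mul]
        positivity
    have h4 := h1.sub h3
    rw [sub_zero] at h4
    refine h4.congr (fun n => ?_)
    have : (Nat.primeCounting ⌊(n : ℝ)⌋₊ : ℝ) = P n + if n.Prime then 1 else 0 := by
      rw [← P_succ]
      simp [P, Nat.primeCounting]
    rw [Function.comp_apply, this]
    ring
  have h1 := (hP.const_mul (1 / 2)).add (sum_h.const_mul (1 / 2))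
  rw [show (1 : ℝ) / 2 * 1 + 1 / 2 * 1 = 1 by norm_num] at h1
  refine h1.congr' ?_
  filter_upwards [eventually_ge_atTop 2] with n hn
  rw [abel]
  have hn' : (2 : ℝ) ≤ n := by exact_mod_cast hn
  have hs : 0 < Real.sqrt n := Real.sqrt_pos.2 (by linarith)
  have e1 : (n : ℝ) = Real.sqrt n ^ 2 := (Real.sq_sqrt (by linarith)).symm
  have hl : 0 < Real.log n := Real.log_pos (by linarith)
  unfold G f
  set s := Real.sqrt n with hsdef
  set L := Real.log (n : ℝ)
  set Q := P n
  set S := ∑ n ∈ range n, h n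
  rw [e1]
  field_simp

lemma v_nonneg (n : ℕ) : 0 ≤ v n := by
  unfold v f
  split_ifs <;> positivity

lemma scale_tend : Tendsto (fun x : ℕ => Real.sqrt x / Real.log x) atTop atTop := by
  have h1 : Tendsto (fun x : ℝ => Real.sqrt x / Real.log x) atTop atTop := by
    have h2 : (fun x : ℝ => Real.log x) =o[atTop] fun x : ℝ => Real.sqrt x := by
      have := isLittleO_log_rpow_atTop (show (0 : ℝ) < 1 / 2 by norm_num)
      simpa only [Real.sqrt_eq_rpow] using this
    have h3 := h2.tendsto_div_nhds_zero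
    have h4 : Tendsto (fun x : ℝ => Real.log x / Real.sqrt x) atTop (𝓝[>] 0) := by
      rw [tendsto_nhdsWithin_iff]
      refine ⟨h3, ?_⟩
      filter_upwards [eventually_gt_atTop 1] with x hx
      exact div_pos (Real.log_pos hx) (Real.sqrt_pos.2 (by linarith))
    refine h4.inv_tendsto_nhdsGT_zero.congr (fun x => ?_)
    simp
  exact h1.comp tendsto_natCast_atTop_atTop

lemma v_div : Tendsto (fun x : ℕ => ∑ n ∈ range x, v n) atTop atTop := by
  have h1 := sum_v.pos_mul_atTop one_pos scale_tend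
  refine h1.congr' ?_
  filter_upwards [scale_tend.eventually_gt_atTop 0] with x hx
  exact div_mul_cancel₀ _ hx.ne'

open Pool.Agent.Q164.LT Pool.Agent.Q120.ME in
/-- **Job MASS.** -/
theorem t_MASS : Pool.Agent.Q164.LT.J_MASS := by
  classical
  intro r N C q hN hC hM
  set u : ℕ → ℝ := fun n => if n ∈ cand r N then q n else 0 with hu
  have hmass : ∀ x, mass (cand r N) q x = ∑ n ∈ range x, u n := by
    intro x
    unfold mass ind
    rw [sum_filter]
  have ho : (fun n => u n - C * v n) =o[atTop] v := by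
    rw [isLittleO_iff]
    intro ε hε
    filter_upwards [hM.lim ε hε, eventually_gt_atTop N, eventually_ge_atTop (r ^ 2).toNat,
      eventually_ge_atTop 1] with n h1 h2 h3 h4
    rw [Real.norm_eq_abs, Real.norm_of_nonneg (v_nonneg n)]
    by_cases hp : n.Prime
    · have hc : n ∈ cand r N := by
        refine ⟨hp, fun hd => ?_, ?_⟩
        · exact absurd (Nat.le_of_dvd (Nat.pos_of_ne_zero hN) hd) (by omega)
        · have : r ^ 2 ≤ (n : ℤ) := Int.toNat_le.1 h3
          omega
      have h5 := h1 hc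
      rw [hu, v]
      simp only [if_pos hc, if_pos hp]
      have hn' : (0 : ℝ) < n := by exact_mod_cast h4
      have hs : 0 < Real.sqrt n := Real.sqrt_pos.2 hn'
      have e1 : q n - C * f n = (2 * Real.sqrt n * q n - C) * f n := by
        unfold f
        field_simp
      have hf : 0 ≤ f n := by unfold f; positivity
      rw [e1, abs_mul, abs_of_nonneg hf]
      exact mul_le_mul_of_nonneg_right h5 hf
    · have hc : n ∉ cand r N := fun hc => hp hc.1
      rw [hu, v]
      simp only [if_neg hc, if_neg hp]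
      simp
  have h1 := (ho.sum_range v_nonneg v_div).tendsto_div_nhds_zero
  have h2 := (h1.mul sum_v).add (sum_v.const_mul C)
  rw [zero_mul, zero_add, mul_one] at h2
  refine h2.congr' ?_
  filter_upwards [v_div.eventually_gt_atTop 0] with x hx
  rw [hmass, sum_sub_distrib, ← mul_sum]
  field_simp
  ring

end Pool.Agent.Q224.LT
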